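import Pool.Agent.X284.LI.PCnt

/-!
# The numbers in Deligne's conjecture for twists of newforms by characters of prime conductor

Let `f_1, ..., f_r` be newforms of even weights `2 m_j`, levels `N_j` and arbitrary characters, with
pairwise different normalised eigenvalues.  For a Dirichlet character `χ` of conductor prime to the
`N_j` the integer `m_j` is critical for the motive `M(f_j) ⊗ χ`, and Deligne's conjecture, proved by
Manin and Shimura in this case, says that `L(f_j ⊗ χ, m_j) = g(χ) Ω_j^± e_j(χ)` with the Gauss sum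
`g(χ)`, Deligne's periods `Ω_j^±` (the sign is `χ(-1)` up to `(-1)^(m_j)`) and an algebraic number
`e_j(χ)` in the field generated by the coefficients of `f_j` and the values of `χ`.

We study how often a fixed linear relation between these algebraic numbers can hold when `χ` runs
through the characters of prime conductor.  Let `x_j(b)` be complex numbers, not all zero, where `b`
runs through a finite set of positive integers.  For every `ε > 0`:

* for all primes `q ≤ X` with `O(X^(1/2 + ε))` exceptions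
  `∑_j (∑_b x_j(b) χ(b)) e_j(χ) ≠ 0` for all characters `χ` modulo `q` of order at
  least `q^(3/4 + ε)`;
* of the about `X² / (2 log X)` nontrivial characters of prime conductor at most `X` at most
  `O(X^(7/4 + ε))` satisfy the relation `∑_j (∑_b x_j(b) χ(b)) e_j(χ) = 0`.

In particular, for one form, `e_j(χ) ≠ 0`, and Deligne's period is determined by the value of the
`L`-function, up to `O(X^(7/4 + ε))` exceptions.
-/

set_option autoImplicit false

open Complex UpperHalfPlane MatrixGroups CongruenceSubgroup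

namespace Pool.Agent.Results.MP_100fe7_nt.CentralValuesPrimeConductor

/-- The `n`-th Fourier coefficient of `f`. -/
noncomputable def coef {N : ℕ} {k : ℤ} (f : CuspForm (Gamma1 N : Subgroup (GL (Fin 2) ℝ)) k)
    (n : ℕ) : ℂ :=
  (qExpansion 1 f).coeff n

/-- `f ∈ S_{2m}(Γ₁(N))` is a newform of level `N` with character `η`: the Fourier coefficients
`c(n)` satisfy `c(1) = 1`, `c(ab) = c(a) c(b)` for coprime `a`, `b`,
`c(p^(j+2)) = c(p) c(p^(j+1)) - η(p) p^(2m-1) c(p^j)`; for the primes `p ∤ N`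
`conj c(p) = conj η(p) c(p)` and `|c(p)| ≤ 2 p^((2m-1)/2)` (Eichler, Shimura, Deligne), for the
primes `p ∣ N` `|c(p)| ≤ p^((2m-1)/2)`; `f(γτ) = η(d) (cτ + d)^(2m) f(τ)` for
`γ = (a b; c d) ∈ Γ₀(N)`; and the Fricke involution takes `f` to a multiple of `f^c`,
`f^c(τ) = conj f(-conj τ)` (Atkin, Lehner, Li):
`f(-1/(Nτ)) = (-1)^m w N^m τ^(2m) f^c(τ)` with `|w| = 1`. -/
structure IsNewform (m N : ℕ) (η : DirichletCharacter ℂ N)
    (f : CuspForm (Gamma1 N : Subgroup (GL (Fin 2) ℝ)) (2 * m : ℤ)) (w : ℂ) : Prop where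
  one : coef f 1 = 1
  mul : ∀ a b : ℕ, Nat.Coprime a b → coef f (a * b) = coef f a * coef f b
  pow : ∀ p j : ℕ, p.Prime → coef f (p ^ (j + 2)) = coef f p * coef f (p ^ (j + 1)) -
    η (p : ZMod N) * (p : ℂ) ^ (2 * m - 1) * coef f (p ^ j)
  conj : ∀ p : ℕ, p.Prime → ¬ p ∣ N → (starRingEnd ℂ) (coef f p) =
    (starRingEnd ℂ) (η (p : ZMod N)) * coef f p
  good : ∀ p : ℕ, p.Prime → ¬ p ∣ N → ‖coef f p‖ ≤ 2 * (p : ℝ) ^ ((2 * m - 1 : ℝ) / 2)
  bad : ∀ p : ℕ, p.Prime → p ∣ N → ‖coef f p‖ ≤ (p : ℝ) ^ ((2 * m - 1 : ℝ) / 2)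
  neb : ∀ γ : SL(2, ℤ), γ ∈ Gamma0 N → ∀ τ : ℍ, f (γ • τ) = η ((γ 1 1 : ℤ) : ZMod N) *
    (((γ 1 0 : ℤ) : ℂ) * (τ : ℂ) + ((γ 1 1 : ℤ) : ℂ)) ^ (2 * m) * f τ
  norm : ‖w‖ = 1
  fricke : ∀ τ τ' τc : ℍ, (τ' : ℂ) * ((N : ℂ) * (τ : ℂ)) = -1 →
    (τc : ℂ) = -(starRingEnd ℂ) (τ : ℂ) →
    f τ' = (-1 : ℂ) ^ m * w * (N : ℂ) ^ m * (τ : ℂ) ^ (2 * m) * (starRingEnd ℂ) (f τc)

/-- A newform `f` of even weight `2m ≥ 2`, level `N ≥ 1` and character `η`. -/
structure Newform where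
  /-- the level -/
  N : ℕ
  N_ne : N ≠ 0
  /-- half of the weight -/
  m : ℕ
  m_pos : 1 ≤ m
  /-- the character -/
  η : DirichletCharacter ℂ N
  /-- the form -/
  f : CuspForm (Gamma1 N : Subgroup (GL (Fin 2) ℝ)) (2 * m : ℤ)
  /-- the constant of the Fricke involution -/
  w : ℂ
  newform : IsNewform m N η f w

/-- The Euler factor at the prime `p` of the `L`-function of `f ⊗ χ`:
`(1 - χ(p) c(p) p^(-s) + χ(p)² η(p) p^(2m-1) p^(-2s))⁻¹`. -/
noncomputable def Newform.factor (P : Newform) {q : ℕ} (χ : DirichletCharacter ℂ q) (s : ℂ)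
    (p : ℕ) : ℂ :=
  (1 - χ (p : ZMod q) * coef P.f p * (p : ℂ) ^ (-s) +
    χ (p : ZMod q) ^ 2 * (P.η (p : ZMod P.N) * (p : ℂ) ^ (2 * P.m - 1)) * (p : ℂ) ^ (-2 * s))⁻¹

/-- The normalised eigenvalues `c(p) / p^(m - 1/2)` of two newforms differ at the prime `p`. -/
def Differ (P Q : Newform) (p : ℕ) : Prop :=
  coef P.f p * (p : ℂ) ^ Q.m ≠ coef Q.f p * (p : ℂ) ^ P.m

/-- The Gauss sum `g(χ) = ∑_{a mod q} χ(a) exp(2πi a / q)`. -/
noncomputable def gauss {q : ℕ} (χ : DirichletCharacter ℂ q) : ℂ :=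
  ∑ a ∈ Finset.range q, χ (a : ZMod q) * Complex.exp (2 * Real.pi * Complex.I * a / q)

/-- The linear combination
`∑_j (∑_{b ∈ B} x_j(b) χ(b)) L(f_j ⊗ χ, m_j) / (g(χ) Ω_j(χ(-1)))` of the normalised central values. -/
noncomputable def combination {ι : Type} [Fintype ι] (P : ι → Newform)
    (L : ι → (q : ℕ) → DirichletCharacter ℂ q → ℂ → ℂ) (B : Finset ℕ) (x : ι → ℕ → ℂ)
    (Ω : ι → ℂ → ℂ) {q : ℕ} (χ : DirichletCharacter ℂ q) : ℂ :=
  ∑ j, (∑ b ∈ B, x j b * χ (b : ZMod q)) * (L j q χ (P j).m / (gauss χ * Ω j (χ (-1))))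

/-- The primes at most `X` not dividing the levels. -/
def goodPrimes {ι : Type} (P : ι → Newform) (X : ℕ) : Set ℕ :=
  {q | q.Prime ∧ q ≤ X ∧ ∀ j, ¬ q ∣ (P j).N}

/-- the same newform in the library -/
noncomputable def Newform.lib (P : Newform) : Pool.Agent.X284.KS.Newform :=
  have : NeZero P.N := ⟨P.N_ne⟩
  { N := P.N
    m := P.m
    m_pos := P.m_pos
    η := P.η
    f := P.f
    w := P.w
    newf := ⟨P.newform.one, P.newform.mul, P.newform.pow, P.newform.conj, P.newform.good,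
      P.newform.bad, P.newform.neb, P.newform.norm, P.newform.fricke⟩ }

theorem factor_eq (P : Newform) {q : ℕ} (χ : DirichletCharacter ℂ q) (s : ℂ) (p : ℕ)
    (hp : p.Prime) :
    P.factor χ s p = (1 - χ (p : ZMod q) * Pool.Agent.W192.CY.cf P.lib.f p * (p : ℂ) ^ (-s) +
              χ (p : ZMod q) ^ 2 * P.lib.η (p : ZMod P.lib.N) *
                (p : ℂ) ^ (2 * (P.lib.m : ℂ) - 1 - 2 * s))⁻¹ := by
  have hp0 : (p : ℂ) ≠ 0 := by exact_mod_cast hp.ne_zero
  have e : (p : ℂ) ^ (2 * (P.m : ℂ) - 1 - 2 * s) =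
      (p : ℂ) ^ (2 * P.m - 1) * (p : ℂ) ^ (-2 * s) := by
    rw [← Complex.cpow_natCast, ← Complex.cpow_add _ _ hp0]
    congr 1
    have := P.m_pos
    rw [Nat.cast_sub (by omega)]
    push_cast
    ring
  unfold Newform.factor
  have e2 : χ (p : ZMod q) ^ 2 * P.lib.η (p : ZMod P.lib.N) *
      (p : ℂ) ^ (2 * (P.lib.m : ℂ) - 1 - 2 * s) =
      χ (p : ZMod q) ^ 2 * (P.η (p : ZMod P.N) * (p : ℂ) ^ (2 * P.m - 1)) * (p : ℂ) ^ (-2 * s) := by
    have e3 : χ (p : ZMod q) ^ 2 * P.lib.η (p : ZMod P.lib.N) *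
      (p : ℂ) ^ (2 * (P.lib.m : ℂ) - 1 - 2 * s) = χ (p : ZMod q) ^ 2 * P.η (p : ZMod P.N) *
      (p : ℂ) ^ (2 * (P.m : ℂ) - 1 - 2 * s) := rfl
    rw [e3, e]
    ring
  rw [e2]
  rfl

theorem nc_ne (P Q : Newform) {p : ℕ} (hp : p.Prime) (h : Differ P Q p) :
    Pool.Agent.X284.LI.nc P.lib p ≠ Pool.Agent.X284.LI.nc Q.lib p := by
  have hp0 : (p : ℂ) ≠ 0 := by exact_mod_cast hp.ne_zero
  intro h1
  apply h
  have h2 : coef P.f p / (p : ℂ) ^ (P.m - 1) = coef Q.f p / (p : ℂ) ^ (Q.m - 1) := h1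
  rw [div_eq_div_iff (pow_ne_zero _ hp0) (pow_ne_zero _ hp0)] at h2
  have e : ∀ R : Newform, (p : ℂ) ^ R.m = (p : ℂ) ^ (R.m - 1) * p := by
    intro R
    have := R.m_pos
    rw [← pow_succ]
    congr 1
    omega
  rw [e P, e Q, ← mul_assoc, ← mul_assoc, h2]

theorem gauss_eq {q : ℕ} [NeZero q] (χ : DirichletCharacter ℂ q) :
    gauss χ = gaussSum χ (ZMod.stdAddChar (N := q)) := by
  classical
  unfold gauss gaussSum
  symm
  refine Finset.sum_bij (fun a _ => a.val) (fun a _ => Finset.mem_range.2 (ZMod.val_lt a))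
    (fun a _ b _ h => ZMod.val_injective q h)
    (fun b hb => ⟨(b : ZMod q), Finset.mem_univ _, ZMod.val_cast_of_lt (Finset.mem_range.1 hb)⟩) ?_
  intro a _
  rw [ZMod.natCast_zmod_val]
  congr 1
  rw [ZMod.stdAddChar_apply, ZMod.toCircle_apply]

theorem prim_of_prime {q : ℕ} (hq : q.Prime) {χ : DirichletCharacter ℂ q} (h : χ ≠ 1) :
    χ.IsPrimitive := by
  have : NeZero q := ⟨hq.ne_zero⟩
  have h1 : χ.conductor ∣ q := χ.conductor_dvd_level
  rcases (Nat.dvd_prime hq).1 h1 with h2 | h2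
  · exact absurd (χ.eq_one_iff_conductor_eq_one.2 h2) h
  · exact h2

theorem comb_zero {ι : Type} [Fintype ι] (P : ι → Newform)
    (L : ι → (q : ℕ) → DirichletCharacter ℂ q → ℂ → ℂ) (B : Finset ℕ) (x : ι → ℕ → ℂ)
    (Ω : ι → ℂ → ℂ) {q : ℕ} [NeZero q] {χ : DirichletCharacter ℂ q}
    (hχ : χ.IsPrimitive) (h0 : combination P L B x Ω χ = 0) :
    ∑ j, ∑ b ∈ B, (x j b / Ω j (χ (-1))) * χ (b : ZMod q) * L j q χ (P j).m = 0 := by
  have hg : gauss χ ≠ 0 := by
    rw [gauss_eq]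
    exact Pool.Agent.W440.TW.gauss_ne_zero χ hχ
  have h2 : ∑ j, ∑ b ∈ B, (x j b / Ω j (χ (-1))) * χ (b : ZMod q) * L j q χ (P j).m =
      gauss χ * combination P L B x Ω χ := by
    unfold combination
    rw [Finset.mul_sum]
    refine Finset.sum_congr rfl fun j _ => ?_
    rw [Finset.sum_mul, Finset.mul_sum]
    refine Finset.sum_congr rfl fun b _ => ?_
    have h3 : gauss χ * (x j b * χ (b : ZMod q) *
        (L j q χ (P j).m / (gauss χ * Ω j (χ (-1))))) =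
        (gauss χ / gauss χ) * ((x j b / Ω j (χ (-1))) * χ (b : ZMod q) * L j q χ (P j).m) := by
      field_simp
    rw [h3, div_self hg, one_mul]
  rw [h2, h0, mul_zero]

/-- **Main theorem.** Let `f_j` be finitely many newforms of even weights `2 m_j`, levels `N_j` and
arbitrary characters, whose normalised eigenvalues differ pairwise at infinitely many primes.
There are functions `L j q χ`, the `L`-functions of the `f_j ⊗ χ`, entire and given by the Euler
product for `Re s > m_j + 1/2` if `q` is prime to `N_j` and `χ` is primitive modulo `q`, with the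
following property.

Let `x_j(b)`, `b ∈ B`, be complex numbers, not all zero, for a finite set `B` of positive integers,
and let `Ω_j(1)`, `Ω_j(-1)` be nonzero complex numbers.  For every `ε > 0` there is a constant `C` such
that for all `X ≥ 1`

* for all but at most `C X^(1/2 + ε)` of the primes `q ≤ X` not dividing the `N_j` the linear
  combination `∑_j (∑_b x_j(b) χ(b)) L(f_j ⊗ χ, m_j) / (g(χ) Ω_j(χ(-1)))` is different
  from `0` for all characters `χ` modulo `q` of order at least `q^(3/4 + ε)`;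
* for all but at most `C X^(7/4 + ε)` of the nontrivial characters modulo primes `q ≤ X` not
  dividing the `N_j` the linear combination is different from `0`. -/
theorem result {ι : Type} [Fintype ι] (P : ι → Newform)
    (hne : ∀ i j, i ≠ j → {p : ℕ | p.Prime ∧ Differ (P i) (P j) p}.Infinite) :
    ∃ L : ι → (q : ℕ) → DirichletCharacter ℂ q → ℂ → ℂ,
      (∀ (j : ι) (q : ℕ) (χ : DirichletCharacter ℂ q), 1 ≤ q → Nat.Coprime q (P j).N →
        χ.IsPrimitive → Differentiable ℂ (L j q χ) ∧ ∀ s : ℂ, ((P j).m : ℝ) + 1 / 2 < s.re →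
          HasProd (fun p : Nat.Primes => (P j).factor χ s p) (L j q χ s)) ∧
      ∀ B : Finset ℕ, (∀ b ∈ B, 1 ≤ b) → ∀ x : ι → ℕ → ℂ, (∃ j, ∃ b ∈ B, x j b ≠ 0) →
        ∀ Ω : ι → ℂ → ℂ, (∀ j, Ω j 1 ≠ 0 ∧ Ω j (-1) ≠ 0) → ∀ ε : ℝ, 0 < ε →
        ∃ C : ℝ, 0 < C ∧ ∀ X : ℕ, 1 ≤ X →
          (({q ∈ goodPrimes P X | ∃ χ : DirichletCharacter ℂ q,
            (q : ℝ) ^ (3 / 4 + ε) ≤ orderOf χ ∧ combination P L B x Ω χ = 0}.ncard : ℕ) : ℝ) ≤
            C * (X : ℝ) ^ (1 / 2 + ε) ∧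
          (({y : Σ q : ℕ, DirichletCharacter ℂ q | y.1 ∈ goodPrimes P X ∧ y.2 ≠ 1 ∧
            combination P L B x Ω y.2 = 0}.ncard : ℕ) : ℝ) ≤ C * (X : ℝ) ^ (7 / 4 + ε) := by
  classical
  obtain ⟨L, hL, hmain⟩ := Pool.Agent.X284.LI.li_large (fun j => (P j).lib) (fun i j hij =>
    (hne i j hij).mono fun p hp => ⟨hp.1, nc_ne (P i) (P j) hp.1 hp.2⟩)
  refine ⟨L, ?_, ?_⟩
  · intro j q χ hq hqN hχ
    obtain ⟨h1, h2⟩ := hL j q χ hq hqN hχ
    refine ⟨h1, fun s hs => ?_⟩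
    refine (congrArg (fun g => HasProd g (L j q χ s)) (funext fun p => ?_)).mpr (h2 s hs)
    exact factor_eq (P j) χ s p p.2
  intro B hB x hx Ω hΩ ε₀ hε₀
  obtain ⟨ε, hε⟩ : ∃ ε : ℝ, ε = min (ε₀ / 2) (1 / 8) := ⟨_, rfl⟩
  have hε0 : 0 < ε := by rw [hε]; positivity
  have hε4 : ε < 1 / 4 := by
    rw [hε]; exact lt_of_le_of_lt (min_le_right _ _) (by norm_num)
  have hεε : ε ≤ ε₀ / 2 := by rw [hε]; exact min_le_left _ _
  -- the two parities
  have hpar : ∀ e : ℂ, (∀ j, Ω j e ≠ 0) → ∃ n0 : ℕ, 1 ≤ n0 ∧ ∃ q0 : ℝ, ∀ q : ℕ, q0 ≤ q → 1 ≤ q →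
      (∀ j, Nat.Coprime q (P j).N) → (∀ b ∈ B, Nat.Coprime b q) → Nat.Coprime n0 q →
      (∀ b ∈ B, Pool.Agent.X284.LI.NS q ε b n0) →
      ∀ χ : DirichletCharacter ℂ q, χ.IsPrimitive → (q : ℝ) ^ (3 / 4 + ε) ≤ orderOf χ →
      ∑ j, ∑ b ∈ B, (x j b / Ω j e) * χ (b : ZMod q) * L j q χ (P j).m ≠ 0 := by
    intro e he
    obtain ⟨j, b, hb, hjb⟩ := hx
    obtain ⟨n0, hn0, h⟩ := hmain B hB (fun j b => x j b / Ω j e)
      ⟨j, b, hb, div_ne_zero hjb (he j)⟩
    obtain ⟨q0, hq0⟩ := h ε hε0 hε4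
    exact ⟨n0, hn0, q0, hq0⟩
  obtain ⟨n1, hn1, q1, hq1⟩ := hpar 1 fun j => (hΩ j).1
  obtain ⟨n2, hn2, q2, hq2⟩ := hpar (-1) fun j => (hΩ j).2
  obtain ⟨C1, hC1, hbad1⟩ := Pool.Agent.X284.LI.bad_count B n1 hε0
  obtain ⟨C2, hC2, hbad2⟩ := Pool.Agent.X284.LI.bad_count B n2 hε0
  -- the primes below `Q`
  obtain ⟨Q, hQ⟩ : ∃ Q : ℕ, Q = ⌈max q1 q2⌉₊ + n1 + n2 + ∑ b ∈ B, b := ⟨_, rfl⟩
  have hbQ : ∀ b ∈ B, b ≤ Q := by
    intro b hb
    have : b ≤ ∑ b ∈ B, b := Finset.single_le_sum (f := fun b => b) (fun _ _ => Nat.zero_le _) hb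
    omega
  have hexc : ∀ X : ℕ, {q ∈ goodPrimes P X | ∃ χ : DirichletCharacter ℂ q,
      (q : ℝ) ^ (3 / 4 + ε) ≤ orderOf χ ∧ combination P L B x Ω χ = 0} ⊆
      ((Finset.range (Q + 1) : Finset ℕ) : Set ℕ) ∪
      ({q : ℕ | q.Prime ∧ q ≤ X ∧ ∃ b ∈ B, ¬ Pool.Agent.X284.LI.NS q ε b n1} ∪
       {q : ℕ | q.Prime ∧ q ≤ X ∧ ∃ b ∈ B, ¬ Pool.Agent.X284.LI.NS q ε b n2}) := by
    rintro X q ⟨⟨hqp, hqX, hqN⟩, χ, hord, h0⟩
    by_contra hcon
    rw [Set.mem_union, Set.mem_union, not_or, not_or, Finset.mem_coe, Finset.mem_range] at hcon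
    obtain ⟨g1, g2, g3⟩ := hcon
    have hqQ : Q < q := by omega
    have : NeZero q := ⟨hqp.ne_zero⟩
    have hns1 : ∀ b ∈ B, Pool.Agent.X284.LI.NS q ε b n1 := by
      intro b hb
      by_contra h
      exact g2 ⟨hqp, hqX, b, hb, h⟩
    have hns2 : ∀ b ∈ B, Pool.Agent.X284.LI.NS q ε b n2 := by
      intro b hb
      by_contra h
      exact g3 ⟨hqp, hqX, b, hb, h⟩
    have hcopN : ∀ j, Nat.Coprime q (P j).N := fun j => (hqp.coprime_iff_not_dvd).2 (hqN j)
    have hcop : ∀ n : ℕ, 1 ≤ n → n ≤ Q → Nat.Coprime n q := by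
      intro n hn1 hn2
      exact ((hqp.coprime_iff_not_dvd).2 fun h => by
        have := Nat.le_of_dvd (by omega) h
        omega).symm
    have hmx : max q1 q2 ≤ q := by
      have h1 : max q1 q2 ≤ (⌈max q1 q2⌉₊ : ℝ) := Nat.le_ceil _
      have h2 : (⌈max q1 q2⌉₊ : ℝ) ≤ q := by
        have : ⌈max q1 q2⌉₊ ≤ q := by omega
        exact_mod_cast this
      exact h1.trans h2
    have hq1R : (1 : ℝ) < q := by exact_mod_cast hqp.one_lt
    have hχ1 : χ ≠ 1 := by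
      rintro rfl
      rw [orderOf_one, Nat.cast_one] at hord
      have : (1 : ℝ) < (q : ℝ) ^ (3 / 4 + ε) := Real.one_lt_rpow hq1R (by positivity)
      linarith
    have hχ := prim_of_prime hqp hχ1
    have hz := comb_zero P L B x Ω hχ h0
    have hsq : χ (-1) = 1 ∨ χ (-1) = -1 := by
      have h3 : χ (-1) * χ (-1) = 1 := by
        rw [← map_mul, neg_mul_neg, one_mul, map_one]
      exact mul_self_eq_one_iff.1 h3
    rcases hsq with h | h
    · rw [h] at hz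
      exact hq1 q ((le_max_left _ _).trans hmx) hqp.one_lt.le hcopN
        (fun b hb => hcop b (hB b hb) (hbQ b hb)) (hcop n1 hn1 (by omega)) hns1 χ hχ hord hz
    · rw [h] at hz
      exact hq2 q ((le_max_right _ _).trans hmx) hqp.one_lt.le hcopN
        (fun b hb => hcop b (hB b hb) (hbQ b hb)) (hcop n2 hn2 (by omega)) hns2 χ hχ hord hz
  have hcount : ∀ X : ℕ, 1 ≤ X → {q ∈ goodPrimes P X | ∃ χ : DirichletCharacter ℂ q,
      (q : ℝ) ^ (3 / 4 + ε) ≤ orderOf χ ∧ combination P L B x Ω χ = 0}.Finite ∧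
      (({q ∈ goodPrimes P X | ∃ χ : DirichletCharacter ℂ q,
      (q : ℝ) ^ (3 / 4 + ε) ≤ orderOf χ ∧ combination P L B x Ω χ = 0}.ncard : ℕ) : ℝ) ≤
      (Q + 1 + C1 + C2) * (X : ℝ) ^ (1 / 2 + ε) := by
    intro X hX
    have hX1 : (1 : ℝ) ≤ X := by exact_mod_cast hX
    obtain ⟨f1, b1⟩ := hbad1 X hX
    obtain ⟨f2, b2⟩ := hbad2 X hX
    have hfin := (Finset.finite_toSet (Finset.range (Q + 1))).union (f1.union f2)
    refine ⟨hfin.subset (hexc X), ?_⟩
    have h1 := Set.ncard_le_ncard (hexc X) hfin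
    have h2 := (h1.trans (Set.ncard_union_le _ _)).trans
      (Nat.add_le_add_left (Set.ncard_union_le _ _) _)
    rw [Set.ncard_coe_finset, Finset.card_range] at h2
    have h3 : (({q ∈ goodPrimes P X | ∃ χ : DirichletCharacter ℂ q,
      (q : ℝ) ^ (3 / 4 + ε) ≤ orderOf χ ∧ combination P L B x Ω χ = 0}.ncard : ℕ) : ℝ) ≤
      (Q + 1 : ℝ) + ((({q : ℕ | q.Prime ∧ q ≤ X ∧
        ∃ b ∈ B, ¬ Pool.Agent.X284.LI.NS q ε b n1}.ncard : ℕ) : ℝ) +
      (({q : ℕ | q.Prime ∧ q ≤ X ∧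
        ∃ b ∈ B, ¬ Pool.Agent.X284.LI.NS q ε b n2}.ncard : ℕ) : ℝ)) := by exact_mod_cast h2
    have h4 : (1 : ℝ) ≤ (X : ℝ) ^ (1 / 2 + ε) := Real.one_le_rpow hX1 (by positivity)
    have h5 : (Q + 1 : ℝ) ≤ (Q + 1 : ℝ) * (X : ℝ) ^ (1 / 2 + ε) :=
      le_mul_of_one_le_right (by positivity) h4
    linarith
  obtain ⟨C3, hC3, hdiv, -⟩ := Pool.Agent.W216.CY.t_div ε hε0
  refine ⟨(Q + 1 + C1 + C2) + C3, by positivity, fun X hX => ?_⟩
  have hX1 : (1 : ℝ) ≤ X := by exact_mod_cast hX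
  have hX0 : (0 : ℝ) < X := by linarith
  obtain ⟨hf, hc⟩ := hcount X hX
  constructor
  · -- the exceptional primes
    have hsub : {q ∈ goodPrimes P X | ∃ χ : DirichletCharacter ℂ q,
        (q : ℝ) ^ (3 / 4 + ε₀) ≤ orderOf χ ∧ combination P L B x Ω χ = 0} ⊆
        {q ∈ goodPrimes P X | ∃ χ : DirichletCharacter ℂ q,
        (q : ℝ) ^ (3 / 4 + ε) ≤ orderOf χ ∧ combination P L B x Ω χ = 0} := by
      rintro q ⟨hq, χ, hord, h0⟩
      refine ⟨hq, χ, le_trans ?_ hord, h0⟩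
      have hq1R : (1 : ℝ) ≤ q := by exact_mod_cast hq.1.one_lt.le
      exact Real.rpow_le_rpow_of_exponent_le hq1R (by linarith)
    have h1 : (({q ∈ goodPrimes P X | ∃ χ : DirichletCharacter ℂ q,
        (q : ℝ) ^ (3 / 4 + ε₀) ≤ orderOf χ ∧ combination P L B x Ω χ = 0}.ncard : ℕ) : ℝ) ≤
        (({q ∈ goodPrimes P X | ∃ χ : DirichletCharacter ℂ q,
        (q : ℝ) ^ (3 / 4 + ε) ≤ orderOf χ ∧ combination P L B x Ω χ = 0}.ncard : ℕ) : ℝ) := by
      exact_mod_cast Set.ncard_le_ncard hsub hf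
    refine h1.trans (hc.trans ?_)
    have h2 : (X : ℝ) ^ (1 / 2 + ε) ≤ (X : ℝ) ^ (1 / 2 + ε₀) :=
      Real.rpow_le_rpow_of_exponent_le hX1 (by linarith)
    calc (Q + 1 + C1 + C2) * (X : ℝ) ^ (1 / 2 + ε) ≤
        (Q + 1 + C1 + C2) * (X : ℝ) ^ (1 / 2 + ε₀) := by gcongr
      _ ≤ ((Q + 1 + C1 + C2) + C3) * (X : ℝ) ^ (1 / 2 + ε₀) :=
          mul_le_mul_of_nonneg_right (by linarith) (by positivity)
  · -- the characters
    obtain ⟨E, hE⟩ : ∃ E : Finset ℕ, E = hf.toFinset := ⟨_, rfl⟩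
    have hfinq : ∀ q : ℕ, q.Prime → (Set.univ : Set (DirichletCharacter ℂ q)).Finite := by
      intro q hq
      have : NeZero q := ⟨hq.ne_zero⟩
      exact Set.toFinite _
    -- all characters of the exceptional primes, and the characters of small order
    obtain ⟨A, hA⟩ : ∃ A : (q : ℕ) → Set (Σ q : ℕ, DirichletCharacter ℂ q), A = fun q =>
      {y | y.1 = q ∧ y.1.Prime} := ⟨_, rfl⟩
    obtain ⟨A', hA'⟩ : ∃ A' : (q : ℕ) → Set (Σ q : ℕ, DirichletCharacter ℂ q), A' = fun q =>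
      {y | y.1 = q ∧ y.1.Prime ∧ (orderOf y.2 : ℝ) < (y.1 : ℝ) ^ (3 / 4 + ε)} := ⟨_, rfl⟩
    have hAcard : ∀ q : ℕ, (A q).Finite ∧ (A q).ncard ≤ q := by
      intro q
      by_cases hq : q.Prime
      · have : NeZero q := ⟨hq.ne_zero⟩
        have h1 : A q = (fun χ : DirichletCharacter ℂ q =>
            (⟨q, χ⟩ : Σ q : ℕ, DirichletCharacter ℂ q)) '' Set.univ := by
          rw [hA]
          ext ⟨r, χ⟩
          constructor
          · rintro ⟨h1, h2⟩
            have h3 : r = q := h1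
            subst h3
            exact ⟨χ, Set.mem_univ _, rfl⟩
          · rintro ⟨χ', -, h⟩
            rw [← h]
            exact ⟨rfl, hq⟩
        rw [h1]
        refine ⟨(hfinq q hq).image _, (Set.ncard_image_le (hfinq q hq)).trans ?_⟩
        rw [Set.ncard_univ]
        obtain ⟨φ⟩ := DirichletCharacter.mulEquiv_units ℂ q
        rw [Nat.card_congr φ.toEquiv, Nat.card_eq_fintype_card, ZMod.card_units_eq_totient]
        exact Nat.totient_le q
      · have h1 : A q = ∅ := by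
          rw [hA]
          ext ⟨r, χ⟩
          constructor
          · rintro ⟨h1, h2⟩
            have h3 : r = q := h1
            subst h3
            exact absurd h2 hq
          · intro h
            exact absurd h (Set.notMem_empty _)
        rw [h1]
        exact ⟨Set.finite_empty, by rw [Set.ncard_empty]; exact Nat.zero_le _⟩
    have hAcard' : ∀ q : ℕ, (A' q).Finite ∧
        (((A' q).ncard : ℕ) : ℝ) ≤ C3 * (q : ℝ) ^ ε * (q : ℝ) ^ (3 / 4 + ε) := by
      intro q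
      by_cases hq : q.Prime
      · have : NeZero q := ⟨hq.ne_zero⟩
        obtain ⟨s1, s2⟩ := Pool.Agent.X284.LI.small_order hq
          (Y := (q : ℝ) ^ (3 / 4 + ε)) (by positivity)
        have h1 : A' q = (fun χ : DirichletCharacter ℂ q =>
            (⟨q, χ⟩ : Σ q : ℕ, DirichletCharacter ℂ q)) ''
            {χ | (orderOf χ : ℝ) < (q : ℝ) ^ (3 / 4 + ε)} := by
          rw [hA']
          ext ⟨r, χ⟩
          constructor
          · rintro ⟨h1, h2, h3⟩
            have h4 : r = q := h1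
            subst h4
            exact ⟨χ, h3, rfl⟩
          · rintro ⟨χ', h4, h⟩
            rw [← h]
            exact ⟨rfl, hq, h4⟩
        rw [h1]
        refine ⟨s1.image _, ?_⟩
        have h2 : (((fun χ : DirichletCharacter ℂ q =>
            (⟨q, χ⟩ : Σ q : ℕ, DirichletCharacter ℂ q)) ''
            {χ | (orderOf χ : ℝ) < (q : ℝ) ^ (3 / 4 + ε)}).ncard : ℝ) ≤
            (({χ : DirichletCharacter ℂ q |
              (orderOf χ : ℝ) < (q : ℝ) ^ (3 / 4 + ε)}.ncard : ℕ) : ℝ) := by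
          exact_mod_cast Set.ncard_image_le s1
        refine h2.trans (s2.trans ?_)
        have h3 : ((q - 1).divisors.card : ℝ) ≤ C3 * (q : ℝ) ^ ε := by
          refine (hdiv (q - 1) (by have := hq.two_le; omega)).trans ?_
          have h4 : ((q - 1 : ℕ) : ℝ) ≤ q := by exact_mod_cast Nat.sub_le q 1
          have h5 : ((q - 1 : ℕ) : ℝ) ^ ε ≤ (q : ℝ) ^ ε :=
            Real.rpow_le_rpow (by positivity) h4 hε0.le
          gcongr
        gcongr
      · have h1 : A' q = ∅ := by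
          rw [hA']
          ext ⟨r, χ⟩
          constructor
          · rintro ⟨h1, h2, h3⟩
            have h3 : r = q := h1
            subst h3
            exact absurd h2 hq
          · intro h
            exact absurd h (Set.notMem_empty _)
        rw [h1]
        refine ⟨Set.finite_empty, ?_⟩
        rw [Set.ncard_empty, Nat.cast_zero]
        positivity
    have hsub : {y : Σ q : ℕ, DirichletCharacter ℂ q | y.1 ∈ goodPrimes P X ∧ y.2 ≠ 1 ∧
        combination P L B x Ω y.2 = 0} ⊆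
        (⋃ q ∈ E, A q) ∪ (⋃ q ∈ Finset.range (X + 1), A' q) := by
      rintro ⟨q, χ⟩ ⟨hq, hχ1, h0⟩
      have hqp : q.Prime := hq.1
      have hqX : q ≤ X := hq.2.1
      rcases lt_or_ge (orderOf χ : ℝ) ((q : ℝ) ^ (3 / 4 + ε)) with h | h
      · right
        refine Set.mem_biUnion (x := q) (Finset.mem_coe.2 (Finset.mem_range.2 (by omega))) ?_
        rw [hA']
        exact ⟨rfl, hqp, h⟩
      · left
        refine Set.mem_biUnion (x := q) ?_ ?_
        · rw [hE, Set.Finite.coe_toFinset]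
          exact ⟨hq, χ, h, h0⟩
        · rw [hA]
          exact ⟨rfl, hqp⟩
    have hfU1 : (⋃ q ∈ E, A q).Finite := Set.Finite.biUnion E.finite_toSet fun q _ => (hAcard q).1
    have hfU2 : (⋃ q ∈ Finset.range (X + 1), A' q).Finite :=
      Set.Finite.biUnion (Finset.finite_toSet _) fun q _ => (hAcard' q).1
    have h1 := (Set.ncard_le_ncard hsub (hfU1.union hfU2)).trans (Set.ncard_union_le _ _)
    have h2 : ((⋃ q ∈ E, A q).ncard : ℝ) ≤ (Q + 1 + C1 + C2) * (X : ℝ) ^ (1 / 2 + ε) * X := by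
      have g1 : (⋃ q ∈ E, A q).ncard ≤ ∑ q ∈ E, (A q).ncard := Finset.set_ncard_biUnion_le _ _
      have g2 : ∑ q ∈ E, (A q).ncard ≤ E.card * X := by
        rw [← smul_eq_mul]
        refine Finset.sum_le_card_nsmul _ _ _ fun q hq => ?_
        refine (hAcard q).2.trans ?_
        rw [hE, Set.Finite.mem_toFinset] at hq
        exact hq.1.2.1
      have g3 : (E.card : ℝ) ≤ (Q + 1 + C1 + C2) * (X : ℝ) ^ (1 / 2 + ε) := by
        rw [hE, ← Set.ncard_eq_toFinset_card _ hf]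
        exact hc
      have g4 : ((⋃ q ∈ E, A q).ncard : ℝ) ≤ E.card * X := by exact_mod_cast g1.trans g2
      refine g4.trans ?_
      gcongr
    have h3 : ((⋃ q ∈ Finset.range (X + 1), A' q).ncard : ℝ) ≤
        C3 * (X : ℝ) ^ ε * (X : ℝ) ^ (3 / 4 + ε) * (X : ℝ) := by
      have g1 : (⋃ q ∈ Finset.range (X + 1), A' q).ncard ≤
          ∑ q ∈ Finset.range (X + 1), (A' q).ncard := Finset.set_ncard_biUnion_le _ _
      have g2 : (((∑ q ∈ Finset.range (X + 1), (A' q).ncard : ℕ)) : ℝ) ≤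
          C3 * (X : ℝ) ^ ε * (X : ℝ) ^ (3 / 4 + ε) * (X : ℝ) := by
        rw [Finset.sum_range_succ']
        have g3 : (A' 0).ncard = 0 := by
          have : A' 0 = ∅ := by
            rw [hA']
            ext ⟨r, χ⟩
            constructor
            · rintro ⟨h1, h2, h3⟩
              have h3 : r = 0 := h1
              subst h3
              exact absurd h2 Nat.not_prime_zero
            · intro h
              exact absurd h (Set.notMem_empty _)
          rw [this, Set.ncard_empty]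
        rw [g3, add_zero]
        push_cast
        have g4 : ∀ q ∈ Finset.range X, (((A' (q + 1)).ncard : ℕ) : ℝ) ≤
            C3 * (X : ℝ) ^ ε * (X : ℝ) ^ (3 / 4 + ε) := by
          intro q hq
          rw [Finset.mem_range] at hq
          refine (hAcard' (q + 1)).2.trans ?_
          have g5 : ((q + 1 : ℕ) : ℝ) ≤ X := by exact_mod_cast hq
          gcongr
        refine (Finset.sum_le_card_nsmul _ _ _ g4).trans (le_of_eq ?_)
        rw [Finset.card_range, nsmul_eq_mul]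
        ring
      have g6 : ((⋃ q ∈ Finset.range (X + 1), A' q).ncard : ℝ) ≤
          (((∑ q ∈ Finset.range (X + 1), (A' q).ncard : ℕ)) : ℝ) := by exact_mod_cast g1
      exact g6.trans g2
    have h4 : (({y : Σ q : ℕ, DirichletCharacter ℂ q | y.1 ∈ goodPrimes P X ∧ y.2 ≠ 1 ∧
        combination P L B x Ω y.2 = 0}.ncard : ℕ) : ℝ) ≤
        ((⋃ q ∈ E, A q).ncard : ℝ) + ((⋃ q ∈ Finset.range (X + 1), A' q).ncard : ℝ) := by
      exact_mod_cast h1
    refine h4.trans ((add_le_add h2 h3).trans ?_)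
    have k1 : (X : ℝ) ^ (1 / 2 + ε) * X ≤ (X : ℝ) ^ (7 / 4 + ε₀) := by
      nth_rewrite 2 [← Real.rpow_one (X : ℝ)]
      rw [← Real.rpow_add hX0]
      exact Real.rpow_le_rpow_of_exponent_le hX1 (by linarith)
    have k2 : (X : ℝ) ^ ε * (X : ℝ) ^ (3 / 4 + ε) * (X : ℝ) ≤ (X : ℝ) ^ (7 / 4 + ε₀) := by
      nth_rewrite 3 [← Real.rpow_one (X : ℝ)]
      rw [← Real.rpow_add hX0, ← Real.rpow_add hX0]
      exact Real.rpow_le_rpow_of_exponent_le hX1 (by linarith)
    calc (Q + 1 + C1 + C2) * (X : ℝ) ^ (1 / 2 + ε) * X +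
        C3 * (X : ℝ) ^ ε * (X : ℝ) ^ (3 / 4 + ε) * (X : ℝ) =
        (Q + 1 + C1 + C2) * ((X : ℝ) ^ (1 / 2 + ε) * X) +
        C3 * ((X : ℝ) ^ ε * (X : ℝ) ^ (3 / 4 + ε) * (X : ℝ)) := by ring
      _ ≤ (Q + 1 + C1 + C2) * (X : ℝ) ^ (7 / 4 + ε₀) + C3 * (X : ℝ) ^ (7 / 4 + ε₀) := by gcongr
      _ = _ := by ring

end Pool.Agent.Results.MP_100fe7_nt.CentralValuesPrimeConductor
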