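import Pool.Agent.X208.BR.Del

/-!
# Deligne's conjecture with coefficients: fields of arbitrarily large degree suffice

Let `N` be a motive over the number field `K` (in the problem `K = ℚ`) with coefficients in `E`, pure,
without classes of type `(w/2, w/2)`, and `m` a critical integer. For the number fields `K' ⊃ K` let
`r K' ∈ E ⊗ ℂ` be the quotient of the value at `m` of the `L`-function of the restriction of scalars
`Res_{K'/ℚ} N_{K'}` and of `(2πi)^{m n^ε} c^ε(Res_{K'/ℚ} N_{K'})`; Deligne's conjecture for this motive and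
`m` says that `r K'` is in `E` (`Holds`). The only input are the Brauer relations (`CoefRatios`). Let `M/K`
be Galois with elementary abelian group of exponent `p`, such that no component of `r K'` (`K ⊂ K' ⊂ M`)
vanishes (`Good`).

1. If `(r K)^{p^{j+1}}` is not in `E`, the proportions `x_j`, `x_{j+1}` of the fields `K'` for which the
   conjecture fails among those of degree `p^j`, `p^{j+1}` over `K` satisfy
   `(1 + p + ... + p^j) x_j + x_{j+1} ≥ 1`.
2. If the conjecture fails over `K`, this is so for all `p` but at most one, for all `j` and `M`; in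
   particular it fails for some `K'` of degree `p^j` or `p^{j+1}`, as soon as `[M : K] ≥ p^{j+1}`.
3. So Deligne's conjecture over `K` follows from the conjecture over the fields of degrees `p^j`, `p^{j+1}`
   in one such `M`, and `ℓ^i`, `ℓ^{i+1}` in one such `M'`, for two primes `p ≠ ℓ` and any `i`, `j`: fields of
   arbitrarily large degree suffice.

-/

set_option autoImplicit false

namespace Pool.Agent.Results.MP_100fe7_nt.FieldsOfLargeDegree

open Pool.Agent.X208.BR.Pk

/-- **Deligne's conjecture with coefficients: fields of large degree suffice.** -/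
theorem result (E : Type) [Field E] [NumberField E] (K : Fld) (D : CoefRatios E K) :
    -- 1. one prime, two consecutive layers
    (∀ (p : ℕ) (M : Fld) (j : ℕ), D.Good p M → (¬ ∃ e : E, ∀ τ, D.r K τ ^ p ^ (j + 1) = τ e) →
      (layer K M (p ^ j)).ncard * (layer K M (p ^ (j + 1))).ncard ≤
        (layer K M (p ^ j)).ncard * (D.failing M (p ^ (j + 1))).ncard +
          (∑ i ∈ Finset.range (j + 1), p ^ i) * (layer K M (p ^ (j + 1))).ncard *
            (D.failing M (p ^ j)).ncard) ∧
    -- 2. all primes but at most one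
    ((∀ τ, D.r K τ ≠ 0) → ¬ D.Holds K → ∃ p₀ : ℕ, ∀ (p : ℕ) (M : Fld) (j : ℕ),
      D.Good p M → p ≠ p₀ →
        (layer K M (p ^ j)).ncard * (layer K M (p ^ (j + 1))).ncard ≤
          (layer K M (p ^ j)).ncard * (D.failing M (p ^ (j + 1))).ncard +
            (∑ i ∈ Finset.range (j + 1), p ^ i) * (layer K M (p ^ (j + 1))).ncard *
              (D.failing M (p ^ j)).ncard ∧
        (p ^ (j + 1) * deg K ≤ deg M → ∃ n, (n = p ^ j ∨ n = p ^ (j + 1)) ∧
          (D.failing M n).Nonempty)) ∧
    -- 3. fields of arbitrarily large degree suffice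
    (∀ (p ℓ : ℕ) (M M' : Fld) (i j : ℕ), p ≠ ℓ → D.Good p M → D.Good ℓ M' →
      p ^ (j + 1) * deg K ≤ deg M → ℓ ^ (i + 1) * deg K ≤ deg M' →
      (∀ K' ∈ layer K M (p ^ j) ∪ layer K M (p ^ (j + 1)) ∪ layer K M' (ℓ ^ i) ∪
        layer K M' (ℓ ^ (i + 1)), D.Holds K') → D.Holds K) := by
  have hne : Nonempty (E →+* ℂ) := inferInstance
  refine ⟨fun p M j hM h => (D.law hM h).1, fun h0 h => ?_, ?_⟩
  · obtain ⟨p₀, hp₀⟩ := D.exceptional h0 h
    exact ⟨p₀, fun p M j hM hp => D.law hM (hp₀ p hM.prime hp (j + 1))⟩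
  · intro p ℓ M M' i j hpl hM hM' hd hd' hall
    by_contra hcon
    obtain ⟨p₀, hp₀⟩ := D.exceptional (hM.ne K le_rfl hM.elem.le) hcon
    have key : ∀ (p : ℕ) (M : Fld) (j : ℕ), D.Good p M → p ≠ p₀ → p ^ (j + 1) * deg K ≤ deg M →
        (∀ K' ∈ layer K M (p ^ j) ∪ layer K M (p ^ (j + 1)), D.Holds K') → False := by
      intro p M j hM hp hd h1
      obtain ⟨n, hn, L, hL, hL'⟩ := (D.law hM (hp₀ p hM.prime hp (j + 1))).2 hd
      rcases hn with rfl | rfl
      · exact hL' (h1 L (Or.inl hL))
      · exact hL' (h1 L (Or.inr hL))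
    by_cases hp : p = p₀
    · refine key ℓ M' i hM' (fun h => hpl (hp.trans h.symm)) hd' fun K' hK' => hall K' ?_
      rcases hK' with h | h
      · exact Or.inl (Or.inr h)
      · exact Or.inr h
    · refine key p M j hM hp hd fun K' hK' => hall K' ?_
      exact Or.inl (Or.inl hK')

end Pool.Agent.Results.MP_100fe7_nt.FieldsOfLargeDegree
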