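import Pool.Agent.X284.NC.Cnt

/-!
# The numbers in Deligne's conjecture at the noncentral critical integers of twists of newforms

Let `f_1, ..., f_r` be newforms of even weights `2 m_j`, levels `N_j` and arbitrary characters, and
let `1 ≤ i_j ≤ 2 m_j - 1`, `i_j ≠ m_j`, be critical integers different from the centres.  For a Dirichlet
character `χ` of conductor prime to the `N_j` Deligne's conjecture for `M(f_j) ⊗ χ`, proved by
Manin and Shimura in this case, says that `L(f_j ⊗ χ, i_j) = g(χ) Ω_j^± e_j(χ)` with the Gauss sum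
`g(χ)`, the period `Ω_j^±` (Deligne's period times a power of `2 π i`, the sign is `χ(-1)` up to
`(-1)^(i_j)`) and an algebraic number `e_j(χ)` in the field generated by the coefficients of `f_j`
and the values of `χ`.

For one form these numbers are different from zero.  We study how often a fixed linear relation
`∑_j (∑_b x_j(b) χ(b)) e_j(χ) = 0` between them can hold; the `x_j(b)` are complex numbers, not all
zero, where `b` runs through a finite set of positive integers.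

* There are only finitely many such `χ` among the primitive characters whose conductor is composed
  of finitely many given primes, prime to the `N_j` and to the `b`.
* For all primes `q ≤ X` with `O(X^(2 - 2θ + ε))` exceptions there is no such `χ` modulo `q` of order at
  least `q^θ`.
* Of the about `X² / (2 log X)` nontrivial characters of prime conductor at most `X` only
  `O(X^(3/2 + ε))` satisfy the relation.
-/

set_option autoImplicit false

open Complex UpperHalfPlane MatrixGroups CongruenceSubgroup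

namespace Pool.Agent.Results.MP_100fe7_nt.NoncentralPrimeConductor

/-- The `n`-th Fourier coefficient of `f`. -/
noncomputable def coef {N : ℕ} {k : ℤ} (f : CuspForm (Gamma1 N : Subgroup (GL (Fin 2) ℝ)) k)
    (n : ℕ) : ℂ :=
  (qExpansion 1 f).coeff n

/-- `f ∈ S_{2m}(Γ₁(N))` is a newform of level `N` with character `η`: the Fourier coefficients
`c(n)` satisfy `c(1) = 1`, `c(ab) = c(a) c(b)` for coprime `a`, `b`,
`c(p^(j+2)) = c(p) c(p^(j+1)) - η(p) p^(2m-1) c(p^j)`; for the primes `p ∤ N`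
`conj c(p) = conj η(p) c(p)` and `|c(p)| ≤ 2 p^((2m-1)/2)` (Eichler, Shimura, Deligne), for the
primes `p ∣ N` `|c(p)| ≤ p^((2m-1)/2)`; `f(γτ) = η(d) (cτ + d)^(2m) f(τ)` for
`γ = (a b; c d) ∈ Γ₀(N)`; and the Fricke involution takes `f` to a multiple of `f^c`,
`f^c(τ) = conj f(-conj τ)` (Atkin, Lehner, Li):
`f(-1/(Nτ)) = (-1)^m w N^m τ^(2m) f^c(τ)` with `|w| = 1`. -/
structure IsNewform (m N : ℕ) (η : DirichletCharacter ℂ N)
    (f : CuspForm (Gamma1 N : Subgroup (GL (Fin 2) ℝ)) (2 * m : ℤ)) (w : ℂ) : Prop where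
  one : coef f 1 = 1
  mul : ∀ a b : ℕ, Nat.Coprime a b → coef f (a * b) = coef f a * coef f b
  pow : ∀ p j : ℕ, p.Prime → coef f (p ^ (j + 2)) = coef f p * coef f (p ^ (j + 1)) -
    η (p : ZMod N) * (p : ℂ) ^ (2 * m - 1) * coef f (p ^ j)
  conj : ∀ p : ℕ, p.Prime → ¬ p ∣ N → (starRingEnd ℂ) (coef f p) =
    (starRingEnd ℂ) (η (p : ZMod N)) * coef f p
  good : ∀ p : ℕ, p.Prime → ¬ p ∣ N → ‖coef f p‖ ≤ 2 * (p : ℝ) ^ ((2 * m - 1 : ℝ) / 2)
  bad : ∀ p : ℕ, p.Prime → p ∣ N → ‖coef f p‖ ≤ (p : ℝ) ^ ((2 * m - 1 : ℝ) / 2)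
  neb : ∀ γ : SL(2, ℤ), γ ∈ Gamma0 N → ∀ τ : ℍ, f (γ • τ) = η ((γ 1 1 : ℤ) : ZMod N) *
    (((γ 1 0 : ℤ) : ℂ) * (τ : ℂ) + ((γ 1 1 : ℤ) : ℂ)) ^ (2 * m) * f τ
  norm : ‖w‖ = 1
  fricke : ∀ τ τ' τc : ℍ, (τ' : ℂ) * ((N : ℂ) * (τ : ℂ)) = -1 →
    (τc : ℂ) = -(starRingEnd ℂ) (τ : ℂ) →
    f τ' = (-1 : ℂ) ^ m * w * (N : ℂ) ^ m * (τ : ℂ) ^ (2 * m) * (starRingEnd ℂ) (f τc)

/-- A newform `f` of even weight `2m ≥ 2`, level `N ≥ 1` and character `η`. -/
structure Newform where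
  /-- the level -/
  N : ℕ
  N_ne : N ≠ 0
  /-- half of the weight -/
  m : ℕ
  m_pos : 1 ≤ m
  /-- the character -/
  η : DirichletCharacter ℂ N
  /-- the form -/
  f : CuspForm (Gamma1 N : Subgroup (GL (Fin 2) ℝ)) (2 * m : ℤ)
  /-- the constant of the Fricke involution -/
  w : ℂ
  newform : IsNewform m N η f w

/-- The Euler factor at the prime `p` of the `L`-function of `f ⊗ χ`:
`(1 - χ(p) c(p) p^(-s) + χ(p)² η(p) p^(2m-1) p^(-2s))⁻¹`. -/
noncomputable def Newform.factor (P : Newform) {q : ℕ} (χ : DirichletCharacter ℂ q) (s : ℂ)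
    (p : ℕ) : ℂ :=
  (1 - χ (p : ZMod q) * coef P.f p * (p : ℂ) ^ (-s) +
    χ (p : ZMod q) ^ 2 * (P.η (p : ZMod P.N) * (p : ℂ) ^ (2 * P.m - 1)) * (p : ℂ) ^ (-2 * s))⁻¹

/-- The numbers `c_P(p) p^(-i)` and `c_Q(p) p^(-k)` differ at the prime `p`. -/
def Differ (P : Newform) (i : ℕ) (Q : Newform) (k : ℕ) (p : ℕ) : Prop :=
  coef P.f p * (p : ℂ) ^ k ≠ coef Q.f p * (p : ℂ) ^ i

/-- The Gauss sum `g(χ) = ∑_{a mod q} χ(a) exp(2πi a / q)`. -/
noncomputable def gauss {q : ℕ} (χ : DirichletCharacter ℂ q) : ℂ :=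
  ∑ a ∈ Finset.range q, χ (a : ZMod q) * Complex.exp (2 * Real.pi * Complex.I * a / q)

/-- The linear combination
`∑_j (∑_{b ∈ B} x_j(b) χ(b)) L(f_j ⊗ χ, i_j) / (g(χ) Ω_j(χ(-1)))` of the normalised critical
values. -/
noncomputable def combination {ι : Type} [Fintype ι] (i : ι → ℕ)
    (L : ι → (q : ℕ) → DirichletCharacter ℂ q → ℂ → ℂ) (B : Finset ℕ) (x : ι → ℕ → ℂ)
    (Ω : ι → ℂ → ℂ) {q : ℕ} (χ : DirichletCharacter ℂ q) : ℂ :=
  ∑ j, (∑ b ∈ B, x j b * χ (b : ZMod q)) * (L j q χ (i j) / (gauss χ * Ω j (χ (-1))))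

/-- The primes at most `X` not dividing the levels. -/
def goodPrimes {ι : Type} (P : ι → Newform) (X : ℕ) : Set ℕ :=
  {q | q.Prime ∧ q ≤ X ∧ ∀ j, ¬ q ∣ (P j).N}

/-- the same newform in the library -/
noncomputable def Newform.lib (P : Newform) : Pool.Agent.X284.KS.Newform :=
  have : NeZero P.N := ⟨P.N_ne⟩
  { N := P.N
    m := P.m
    m_pos := P.m_pos
    η := P.η
    f := P.f
    w := P.w
    newf := ⟨P.newform.one, P.newform.mul, P.newform.pow, P.newform.conj, P.newform.good,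
      P.newform.bad, P.newform.neb, P.newform.norm, P.newform.fricke⟩ }

theorem factor_eq (P : Newform) {q : ℕ} (χ : DirichletCharacter ℂ q) (s : ℂ) (p : ℕ)
    (hp : p.Prime) :
    P.factor χ s p = (1 - χ (p : ZMod q) * Pool.Agent.W192.CY.cf P.lib.f p * (p : ℂ) ^ (-s) +
              χ (p : ZMod q) ^ 2 * P.lib.η (p : ZMod P.lib.N) *
                (p : ℂ) ^ (2 * (P.lib.m : ℂ) - 1 - 2 * s))⁻¹ := by
  have hp0 : (p : ℂ) ≠ 0 := by exact_mod_cast hp.ne_zero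
  have e : (p : ℂ) ^ (2 * (P.m : ℂ) - 1 - 2 * s) =
      (p : ℂ) ^ (2 * P.m - 1) * (p : ℂ) ^ (-2 * s) := by
    rw [← Complex.cpow_natCast, ← Complex.cpow_add _ _ hp0]
    congr 1
    have := P.m_pos
    rw [Nat.cast_sub (by omega)]
    push_cast
    ring
  unfold Newform.factor
  have e2 : χ (p : ZMod q) ^ 2 * P.lib.η (p : ZMod P.lib.N) *
      (p : ℂ) ^ (2 * (P.lib.m : ℂ) - 1 - 2 * s) =
      χ (p : ZMod q) ^ 2 * (P.η (p : ZMod P.N) * (p : ℂ) ^ (2 * P.m - 1)) * (p : ℂ) ^ (-2 * s) := by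
    have e3 : χ (p : ZMod q) ^ 2 * P.lib.η (p : ZMod P.lib.N) *
      (p : ℂ) ^ (2 * (P.lib.m : ℂ) - 1 - 2 * s) = χ (p : ZMod q) ^ 2 * P.η (p : ZMod P.N) *
      (p : ℂ) ^ (2 * (P.m : ℂ) - 1 - 2 * s) := rfl
    rw [e3, e]
    ring
  rw [e2]
  rfl

theorem differ_ne (P : Newform) (i : ℕ) (Q : Newform) (k : ℕ) {p : ℕ} (hp : p.Prime)
    (h : Differ P i Q k p) :
    Pool.Agent.W192.CY.cf P.lib.f p / (p : ℂ) ^ i ≠ Pool.Agent.W192.CY.cf Q.lib.f p / (p : ℂ) ^ k := by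
  have hp0 : (p : ℂ) ≠ 0 := by exact_mod_cast hp.ne_zero
  intro h1
  apply h
  rwa [div_eq_div_iff (pow_ne_zero _ hp0) (pow_ne_zero _ hp0)] at h1

theorem gauss_eq {q : ℕ} [NeZero q] (χ : DirichletCharacter ℂ q) :
    gauss χ = gaussSum χ (ZMod.stdAddChar (N := q)) := by
  classical
  unfold gauss gaussSum
  symm
  refine Finset.sum_bij (fun a _ => a.val) (fun a _ => Finset.mem_range.2 (ZMod.val_lt a))
    (fun a _ b _ h => ZMod.val_injective q h)
    (fun b hb => ⟨(b : ZMod q), Finset.mem_univ _, ZMod.val_cast_of_lt (Finset.mem_range.1 hb)⟩) ?_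
  intro a _
  rw [ZMod.natCast_zmod_val]
  congr 1
  rw [ZMod.stdAddChar_apply, ZMod.toCircle_apply]

theorem prim_of_prime {q : ℕ} (hq : q.Prime) {χ : DirichletCharacter ℂ q} (h : χ ≠ 1) :
    χ.IsPrimitive := by
  have : NeZero q := ⟨hq.ne_zero⟩
  have h1 : χ.conductor ∣ q := χ.conductor_dvd_level
  rcases (Nat.dvd_prime hq).1 h1 with h2 | h2
  · exact absurd (χ.eq_one_iff_conductor_eq_one.2 h2) h
  · exact h2

theorem comb_zero {ι : Type} [Fintype ι] (i : ι → ℕ)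
    (L : ι → (q : ℕ) → DirichletCharacter ℂ q → ℂ → ℂ) (B : Finset ℕ) (x : ι → ℕ → ℂ)
    (Ω : ι → ℂ → ℂ) {q : ℕ} [NeZero q] {χ : DirichletCharacter ℂ q}
    (hχ : χ.IsPrimitive) (h0 : combination i L B x Ω χ = 0) :
    ∑ j, ∑ b ∈ B, (x j b / Ω j (χ (-1))) * χ (b : ZMod q) * L j q χ (i j) = 0 := by
  have hg : gauss χ ≠ 0 := by
    rw [gauss_eq]
    exact Pool.Agent.W440.TW.gauss_ne_zero χ hχ
  have h2 : ∑ j, ∑ b ∈ B, (x j b / Ω j (χ (-1))) * χ (b : ZMod q) * L j q χ (i j) =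
      gauss χ * combination i L B x Ω χ := by
    unfold combination
    rw [Finset.mul_sum]
    refine Finset.sum_congr rfl fun j _ => ?_
    rw [Finset.sum_mul, Finset.mul_sum]
    refine Finset.sum_congr rfl fun b _ => ?_
    have h3 : gauss χ * (x j b * χ (b : ZMod q) *
        (L j q χ (i j) / (gauss χ * Ω j (χ (-1))))) =
        (gauss χ / gauss χ) * ((x j b / Ω j (χ (-1))) * χ (b : ZMod q) * L j q χ (i j)) := by
      field_simp
    rw [h3, div_self hg, one_mul]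
  rw [h2, h0, mul_zero]

theorem par {q : ℕ} (χ : DirichletCharacter ℂ q) : χ (-1) = 1 ∨ χ (-1) = -1 := by
  have h3 : χ (-1) * χ (-1) = 1 := by
    rw [← map_mul, neg_mul_neg, one_mul, map_one]
  exact mul_self_eq_one_iff.1 h3

/-- **Main theorem.** Let `f_j` be finitely many newforms of even weights `2 m_j`, levels `N_j` and
arbitrary characters, and let `i_j` be integers with `1 ≤ i_j ≤ 2 m_j - 1` and `i_j ≠ m_j`, such that for
`j ≠ k` the numbers `c_j(p) p^(-i_j)` and `c_k(p) p^(-i_k)` differ at infinitely many primes.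
There are functions `L j q χ`, the `L`-functions of the `f_j ⊗ χ`, entire and given by the Euler
product for `Re s > m_j + 1/2` if `q` is prime to `N_j` and `χ` is primitive modulo `q`, with the
following property.

Let `x_j(b)`, `b ∈ B`, be complex numbers, not all zero, for a finite set `B` of positive integers,
let `Ω_j(1)`, `Ω_j(-1)` be nonzero complex numbers, and put
`E(χ) = ∑_j (∑_b x_j(b) χ(b)) L(f_j ⊗ χ, i_j) / (g(χ) Ω_j(χ(-1)))`.

* Let `S` be a finite set of primes dividing neither the `N_j` nor the `b ∈ B`.  Then `E(χ) ≠ 0` for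
  all but finitely many primitive characters `χ` whose conductor is composed of primes in `S`.
* For every `θ ≤ 1` and `ε > 0` there is `C` such that for all `X ≥ 1` and for all but at most
  `C X^(2 - 2θ + ε)` of the primes `q ≤ X` not dividing the `N_j` we have `E(χ) ≠ 0` for all nontrivial
  characters `χ` modulo `q` of order at least `q^θ`.
* For every `ε > 0` there is `C` such that for all `X ≥ 1` we have `E(χ) ≠ 0` for all but at most
  `C X^(3/2 + ε)` of the nontrivial characters modulo primes `q ≤ X` not dividing the `N_j`. -/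
theorem result {ι : Type} [Fintype ι] (P : ι → Newform) (i : ι → ℕ)
    (hi : ∀ j, 1 ≤ i j ∧ i j ≤ 2 * (P j).m - 1 ∧ i j ≠ (P j).m)
    (hne : ∀ j k, j ≠ k → {p : ℕ | p.Prime ∧ Differ (P j) (i j) (P k) (i k) p}.Infinite) :
    ∃ L : ι → (q : ℕ) → DirichletCharacter ℂ q → ℂ → ℂ,
      (∀ (j : ι) (q : ℕ) (χ : DirichletCharacter ℂ q), 1 ≤ q → Nat.Coprime q (P j).N →
        χ.IsPrimitive → Differentiable ℂ (L j q χ) ∧ ∀ s : ℂ, ((P j).m : ℝ) + 1 / 2 < s.re →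
          HasProd (fun p : Nat.Primes => (P j).factor χ s p) (L j q χ s)) ∧
      ∀ B : Finset ℕ, (∀ b ∈ B, 1 ≤ b) → ∀ x : ι → ℕ → ℂ, (∃ j, ∃ b ∈ B, x j b ≠ 0) →
        ∀ Ω : ι → ℂ → ℂ, (∀ j, Ω j 1 ≠ 0 ∧ Ω j (-1) ≠ 0) →
        (∀ S : Finset ℕ, (∀ p ∈ S, p.Prime ∧ (∀ j, ¬ p ∣ (P j).N) ∧ ∀ b ∈ B, ¬ p ∣ b) →
          ∃ q0 : ℕ, ∀ q : ℕ, q0 < q → (∀ p : ℕ, p.Prime → p ∣ q → p ∈ S) →
            ∀ χ : DirichletCharacter ℂ q, χ.IsPrimitive → combination i L B x Ω χ ≠ 0) ∧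
        ∀ ε : ℝ, 0 < ε →
          (∀ θ : ℝ, θ ≤ 1 → ∃ C : ℝ, 0 < C ∧ ∀ X : ℕ, 1 ≤ X →
            (({q ∈ goodPrimes P X | ∃ χ : DirichletCharacter ℂ q, χ ≠ 1 ∧
              (q : ℝ) ^ θ ≤ orderOf χ ∧ combination i L B x Ω χ = 0}.ncard : ℕ) : ℝ) ≤
              C * (X : ℝ) ^ (2 - 2 * θ + ε)) ∧
          ∃ C : ℝ, 0 < C ∧ ∀ X : ℕ, 1 ≤ X →
            (({y : Σ q : ℕ, DirichletCharacter ℂ q | y.1 ∈ goodPrimes P X ∧ y.2 ≠ 1 ∧
              combination i L B x Ω y.2 = 0}.ncard : ℕ) : ℝ) ≤ C * (X : ℝ) ^ (3 / 2 + ε) := by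
  classical
  obtain ⟨L, hL, hmain⟩ := Pool.Agent.X284.NC.nc_main (fun j => (P j).lib) i
    (fun j => (hi j).1) (fun j => by
      have h1 := (hi j).1
      have h2 := (hi j).2.1
      have h3 : (P j).lib.m = (P j).m := rfl
      rw [h3]
      omega) (fun j => (hi j).2.2)
    (fun j k hjk => (hne j k hjk).mono fun p hp => ⟨hp.1, differ_ne (P j) (i j) (P k) (i k) hp.1 hp.2⟩)
  refine ⟨L, ?_, ?_⟩
  · intro j q χ hq hqN hχ
    obtain ⟨h1, h2⟩ := hL j q χ hq hqN hχ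
    refine ⟨h1, fun s hs => ?_⟩
    refine (congrArg (fun g => HasProd g (L j q χ s)) (funext fun p => ?_)).mpr (h2 s hs)
    exact factor_eq (P j) χ s p p.2
  intro B hB x hx Ω hΩ
  -- the two parities
  have hpar : ∀ S : Finset ℕ, (∀ p ∈ S, p.Prime ∧ (∀ j, ¬ p ∣ (P j).N) ∧ ∀ b ∈ B, ¬ p ∣ b) →
      ∀ e : ℂ, (∀ j, Ω j e ≠ 0) → ∃ M₀ : ℕ, 1 ≤ M₀ ∧ ∃ NN : Finset (ℕ × ℕ),
          (∀ z ∈ NN, 1 ≤ z.1 ∧ 1 ≤ z.2 ∧ ∀ p ∈ S, ¬ p ∣ z.1 ∧ ¬ p ∣ z.2) ∧
          ∀ δ : ℝ, 0 < δ → δ ≤ 1 → ∃ q0 : ℝ, ∀ (q : ℕ) [NeZero q], q0 ≤ q →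
            (∀ j, Nat.Coprime q (P j).N) → (∀ b ∈ B, Nat.Coprime b q) →
            (∀ z ∈ NN, Nat.Coprime z.1 q ∧ Nat.Coprime z.2 q) →
            ∀ χ : DirichletCharacter ℂ q, χ.IsPrimitive → ∀ y : ℝ,
            (∀ z ∈ NN, Pool.Agent.X284.NC.NSy q y ((q : ℝ) ^ δ) z.1 z.2) →
            Pool.Agent.X284.NC.OC q χ M₀ δ y →
            ∑ j, ∑ b ∈ B, (x j b / Ω j e) * χ (b : ZMod q) * L j q χ (i j) ≠ 0 := by
    intro S hS e he
    obtain ⟨j, b, hb, hjb⟩ := hx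
    exact hmain S (fun p hp => ⟨(hS p hp).1, (hS p hp).2.1⟩) B
      (fun b hb => ⟨hB b hb, fun p hp => (hS p hp).2.2 b hb⟩) (fun j b => x j b / Ω j e)
      ⟨j, b, hb, div_ne_zero hjb (he j)⟩
  constructor
  · -- smooth conductors
    intro S hS
    have hone : ∀ e : ℂ, (∀ j, Ω j e ≠ 0) → ∃ q0 : ℝ, ∀ (q : ℕ) [NeZero q], q0 ≤ q →
        (∀ p : ℕ, p.Prime → p ∣ q → p ∈ S) →
        ∀ χ : DirichletCharacter ℂ q, χ.IsPrimitive →
        ∑ j, ∑ b ∈ B, (x j b / Ω j e) * χ (b : ZMod q) * L j q χ (i j) ≠ 0 := by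
      intro e he
      obtain ⟨M₀, hM₀, NN, hNN, hδ⟩ := hpar S hS e he
      obtain ⟨h, hh1, hOC⟩ := Pool.Agent.X284.NC.oc_smooth (S := S) (fun p hp => (hS p hp).1)
        (M₀ := M₀)
      have hhR : (1 : ℝ) ≤ h := by exact_mod_cast hh1
      have hδ1 : 1 / (2 * (h : ℝ)) ≤ 1 := by
        rw [div_le_one (by positivity)]
        linarith
      have hδh : 1 / (2 * (h : ℝ)) * h ≤ 1 / 2 := by
        field_simp
        exact le_rfl
      obtain ⟨q0, hq0⟩ := hδ (1 / (2 * (h : ℝ))) (by positivity) hδ1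
      choose q1 hq1 using fun z : ℕ × ℕ => Pool.Agent.X284.NC.nsy_small hh1
        (δ := 1 / (2 * (h : ℝ))) (by positivity) hδh z.1 z.2
      refine ⟨|q0| + ∑ z ∈ NN, |q1 z|, fun q _ hqq hq χ hχ => ?_⟩
      have hs0 : 0 ≤ ∑ z ∈ NN, |q1 z| := Finset.sum_nonneg fun z _ => abs_nonneg _
      have hcop : ∀ n : ℕ, (∀ p ∈ S, ¬ p ∣ n) → Nat.Coprime n q := by
        intro n hn
        apply Nat.coprime_of_dvd
        intro p hp hpn hpq
        exact hn p (hq p hp hpq) hpn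
      refine hq0 q ?_ (fun j => (hcop _ fun p hp => (hS p hp).2.1 j).symm)
        (fun b hb => hcop _ fun p hp => (hS p hp).2.2 b hb)
        (fun z hz => ⟨hcop _ fun p hp => ((hNN z hz).2.2 p hp).1,
          hcop _ fun p hp => ((hNN z hz).2.2 p hp).2⟩) χ hχ h (fun z hz => ?_) (hOC q hq χ hχ _)
      · have := le_abs_self q0
        linarith
      · refine hq1 z q ?_
        have h1 : |q1 z| ≤ ∑ z ∈ NN, |q1 z| :=
          Finset.single_le_sum (f := fun z => |q1 z|) (fun z _ => abs_nonneg _) hz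
        have h2 := le_abs_self (q1 z)
        have h3 := abs_nonneg q0
        linarith
    obtain ⟨q1, hq1⟩ := hone 1 fun j => (hΩ j).1
    obtain ⟨q2, hq2⟩ := hone (-1) fun j => (hΩ j).2
    refine ⟨⌈max q1 q2⌉₊, fun q hqq hq χ hχ h0 => ?_⟩
    have : NeZero q := ⟨by omega⟩
    have hmx : max q1 q2 ≤ q := (Nat.le_ceil _).trans (by exact_mod_cast hqq.le)
    have hz := comb_zero i L B x Ω hχ h0
    rcases par χ with h | h
    · rw [h] at hz
      exact hq1 q ((le_max_left _ _).trans hmx) hq χ hχ hz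
    · rw [h] at hz
      exact hq2 q ((le_max_right _ _).trans hmx) hq χ hχ hz
  · -- prime conductors
    intro ε hε
    obtain ⟨M₁, hM₁, N₁, hN₁, hδ₁⟩ := hpar ∅ (fun p hp => absurd hp (Finset.notMem_empty p)) 1
      fun j => (hΩ j).1
    obtain ⟨M₂, hM₂, N₂, hN₂, hδ₂⟩ := hpar ∅ (fun p hp => absurd hp (Finset.notMem_empty p)) (-1)
      fun j => (hΩ j).2
    have hcnt := Pool.Agent.X284.NC.count_main
      (V := fun (q : ℕ) (χ : DirichletCharacter ℂ q) => combination i L B x Ω χ = 0)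
      (G := fun q => ∀ j, ¬ q ∣ (P j).N) (N₁ ∪ N₂) (by
        intro δ hδ0 hδ1
        obtain ⟨q1, hq1⟩ := hδ₁ δ hδ0 hδ1
        obtain ⟨q2, hq2⟩ := hδ₂ δ hδ0 hδ1
        refine ⟨max q1 q2 + (∑ b ∈ B, b : ℕ) + (∑ z ∈ N₁ ∪ N₂, (z.1 + z.2) : ℕ) + |q1| + 1,
          fun q _ hqp hqq hqN χ hχ1 y hNS hy h0 => ?_⟩
        have hχ := prim_of_prime hqp hχ1
        have hz := comb_zero i L B x Ω hχ h0
        have hcopN : ∀ j, Nat.Coprime q (P j).N := fun j => (hqp.coprime_iff_not_dvd).2 (hqN j)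
        have hmx0 : -|q1| ≤ max q1 q2 := (neg_abs_le q1).trans (le_max_left _ _)
        have ha0 := abs_nonneg q1
        have hB0 : (0 : ℝ) ≤ (∑ b ∈ B, b : ℕ) := Nat.cast_nonneg _
        have hN0 : (0 : ℝ) ≤ (∑ z ∈ N₁ ∪ N₂, (z.1 + z.2) : ℕ) := Nat.cast_nonneg _
        have hmx : max q1 q2 ≤ q := by linarith
        have hcop : ∀ n : ℕ, 1 ≤ n → n < q → Nat.Coprime n q := by
          intro n hn1 hn2
          exact ((hqp.coprime_iff_not_dvd).2 fun h => by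
            have := Nat.le_of_dvd (by omega) h
            omega).symm
        have hBq : ∀ b ∈ B, Nat.Coprime b q := by
          intro b hb
          refine hcop b (hB b hb) ?_
          have h1 : b ≤ ∑ b ∈ B, b :=
            Finset.single_le_sum (f := fun b => b) (fun _ _ => Nat.zero_le _) hb
          have h2 : ((∑ b ∈ B, b : ℕ) : ℝ) < q := by linarith
          have h3 : (∑ b ∈ B, b : ℕ) < q := by exact_mod_cast h2
          omega
        have hNq : ∀ z ∈ N₁ ∪ N₂, 1 ≤ z.1 → 1 ≤ z.2 → Nat.Coprime z.1 q ∧ Nat.Coprime z.2 q := by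
          intro z hz h1 h2
          have h3 : z.1 + z.2 ≤ ∑ z ∈ N₁ ∪ N₂, (z.1 + z.2) :=
            Finset.single_le_sum (f := fun z : ℕ × ℕ => z.1 + z.2) (fun _ _ => Nat.zero_le _) hz
          have h4 : ((∑ z ∈ N₁ ∪ N₂, (z.1 + z.2) : ℕ) : ℝ) < q := by linarith
          have h5 : (∑ z ∈ N₁ ∪ N₂, (z.1 + z.2) : ℕ) < q := by exact_mod_cast h4
          exact ⟨hcop _ h1 (by omega), hcop _ h2 (by omega)⟩
        rcases par χ with h | h
        · rw [h] at hz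
          exact hq1 q ((le_max_left _ _).trans hmx) hcopN hBq
            (fun z hz => hNq z (Finset.mem_union_left _ hz) (hN₁ z hz).1 (hN₁ z hz).2.1) χ hχ y
            (fun z hz => hNS z (Finset.mem_union_left _ hz))
            (Pool.Agent.X284.NC.oc_large hy) hz
        · rw [h] at hz
          exact hq2 q ((le_max_right _ _).trans hmx) hcopN hBq
            (fun z hz => hNq z (Finset.mem_union_right _ hz) (hN₂ z hz).1 (hN₂ z hz).2.1) χ hχ y
            (fun z hz => hNS z (Finset.mem_union_right _ hz))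
            (Pool.Agent.X284.NC.oc_large hy) hz) hε
    obtain ⟨hc1, C2, hC2, hc2⟩ := hcnt
    refine ⟨fun θ hθ => ?_, C2, hC2, fun X hX => ?_⟩
    · obtain ⟨C, hC, hc⟩ := hc1 θ hθ
      refine ⟨C, hC, fun X hX => ?_⟩
      have h1 := hc X hX
      have e1 : {q ∈ goodPrimes P X | ∃ χ : DirichletCharacter ℂ q, χ ≠ 1 ∧
              (q : ℝ) ^ θ ≤ orderOf χ ∧ combination i L B x Ω χ = 0} =
          {q : ℕ | q.Prime ∧ q ≤ X ∧ (∀ j, ¬ q ∣ (P j).N) ∧ ∃ χ : DirichletCharacter ℂ q, χ ≠ 1 ∧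
          (q : ℝ) ^ θ ≤ orderOf χ ∧ combination i L B x Ω χ = 0} := by
        ext q
        constructor
        · rintro ⟨⟨g1, g2, g3⟩, g4⟩
          exact ⟨g1, g2, g3, g4⟩
        · rintro ⟨g1, g2, g3, g4⟩
          exact ⟨⟨g1, g2, g3⟩, g4⟩
      rw [e1]
      exact h1
    · have h1 := hc2 X hX
      have e1 : {y : Σ q : ℕ, DirichletCharacter ℂ q | y.1 ∈ goodPrimes P X ∧ y.2 ≠ 1 ∧
              combination i L B x Ω y.2 = 0} =
          {y : Σ q : ℕ, DirichletCharacter ℂ q | y.1.Prime ∧ y.1 ≤ X ∧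
            (∀ j, ¬ y.1 ∣ (P j).N) ∧ y.2 ≠ 1 ∧ combination i L B x Ω y.2 = 0} := by
        ext y
        constructor
        · rintro ⟨⟨g1, g2, g3⟩, g4⟩
          exact ⟨g1, g2, g3, g4⟩
        · rintro ⟨g1, g2, g3, g4⟩
          exact ⟨⟨g1, g2, g3⟩, g4⟩
      rw [e1]
      exact h1

end Pool.Agent.Results.MP_100fe7_nt.NoncentralPrimeConductor
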