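import Pool.Agent.X33.DP.CMain

set_option autoImplicit false

/-! # Deligne's periods of a tensor product: the ratio `c⁺ / c⁻`

Let `M`, `N` be pure motives over `ℚ` with coefficients in a number field `E` and `T = M ⊗ N`. If `M` and
`T` have no `(w/2, w/2)`-classes, then, modulo `Eˣ`,
`c⁺(T) / c⁻(T) = (c⁺(M) / c⁻(M)) ^ (dim N⁺ - dim N⁻)`.
No condition on the Hodge numbers is needed, and `N` may have middle classes.

Proof: let `J` be the operator `sign (p - q)` on `M^{p,q}`. It anticommutes with `F_∞`, and changes the sign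
of the projection to `M_DR / F^±`; so `c⁺(M) / c⁻(M)` is the determinant of `J : M⁺ ⊗ ℂ → M⁻ ⊗ ℂ` in
`E`-bases. On `T` there are two such operators, `J_T` and `J_M ⊗ 1`; their product commutes with `F_∞` and
is diagonal with entries `± 1` in a basis of Hodge classes, so its determinant on `T⁺` is `± 1`. The
determinant of `J_M ⊗ 1 : T⁺ ⊗ ℂ → T⁻ ⊗ ℂ` is `det (J_M) ^ (dim N⁺) det (J_M⁻¹) ^ (dim N⁻)`.

The definitions (`PMot`, `PMot.IsPeriod`, `PMot.NoMiddle`, `PMot.IsTensor`) are in
`Pool.Agent.X33.DP.CDefs`; `tpi E k = 1 ⊗ (2πi)^k`, `Formula` (Deligne's formula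
`y ∼ (2πi)^(m n) c^±(T)`, `± = (-1)^m`), `UnitPeriods`, `RatioRelation` and `Transfer` are in
`Pool.Agent.X33.DP.CMain`. -/

namespace Pool.Agent.Results.MP_100fe7_nt.TensorProductPeriods

open TensorProduct Pool.Agent.X33.DP Pool.Agent.X33.DP.PMot

/-- The periods of `M` and `T` exist and are units (`UnitPeriods`); the relation between the periods of
`M ⊗ N` and of `M` (`RatioRelation`); if Deligne's formula holds for the (non-zero) value `y'` at `m'`, then
Deligne's formula for `y` at an integer `m` of the other parity is equivalent to a formula for `y / y'` in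
terms of the periods of `M` only (`Transfer`). -/
theorem result (E : Type) [Field E] [NumberField E] (M N T : PMot E (E ⊗[ℚ] ℂ))
    (β : Matrix (Fin T.N) (Fin M.N × Fin N.N) E) (h : IsTensor M N T β) (hM : NoMiddle M)
    (hT : NoMiddle T) :
    UnitPeriods M ∧ UnitPeriods T ∧ RatioRelation M N T ∧ Transfer (tpi E) M N T :=
  ⟨unitPeriods hM, unitPeriods hT, ratioRelation h hM hT, transfer (tpi E) (tpi_mul E) h hM hT⟩

end Pool.Agent.Results.MP_100fe7_nt.TensorProductPeriods
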